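import Pool.Agent.NH22.ST.Glob
import Pool.Agent.NH22.ST.All

/-!
# All joint moments of weight at most `2 g + 1` of the coefficients `a_1(p), a_2(p), ...` of the normalized Euler factors of the
Jacobians of almost all hyperelliptic curves of genus `g`, for every `g`

The coefficients of the curve `Y ^ 2 = X ^ (2 g + 1) + m (2 g) X ^ (2 g) + ... + m 0` arise from arbitrary integers by changing a few
digits. The main terms are the joint moments of the coefficients of the characteristic polynomial of a random matrix in `USp(2 g)`: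
the numbers of the symmetric matrices with nonnegative integral entries, even diagonal and given row sums. The error terms have the
size of a square root, over arbitrary families of weights on the primes.

The local means are computed by means of the independence of the values of a random monic polynomial at points of the fields
`F_{p ^ k}` which are not conjugate, and by Weil's bound.
-/

set_option autoImplicit false

namespace Pool.Agent.Results.MP_753a9c_nt.AllGeneraJointMoments

open Finset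

/-- The number of the solutions of `Y ^ 2 = X ^ (2 g + 1) + m (2 g) X ^ (2 g) + ... + m 1 X + m 0` in the field with `p ^ k` elements
(the set of the `x` with `x ^ (p ^ k) = x` in an algebraic closure of the field with `p` elements). -/
noncomputable def points (g p k : ℕ) (m : Fin (2 * g + 1) → ℕ) : ℕ :=
  if h : p.Prime then
    haveI : Fact p.Prime := ⟨h⟩
    Nat.card {P : AlgebraicClosure (ZMod p) × AlgebraicClosure (ZMod p) //
      P.1 ^ (p ^ k) = P.1 ∧ P.2 ^ (p ^ k) = P.2 ∧
      P.2 ^ 2 = P.1 ^ (2 * g + 1) + ∑ i, (m i : AlgebraicClosure (ZMod p)) * P.1 ^ (i : ℕ)}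
  else 0

/-- `p` is odd and `X ^ (2 g + 1) + m (2 g) X ^ (2 g) + ... + m 0` is separable modulo `p`, so that the curve of genus `g` with this
equation is smooth modulo `p`. -/
def Smooth (g p : ℕ) (m : Fin (2 * g + 1) → ℕ) : Prop :=
  p ≠ 2 ∧ (Polynomial.X ^ (2 * g + 1) + ∑ i, Polynomial.C (m i : ZMod p) * Polynomial.X ^ (i : ℕ)).Separable

/-- The coefficients `c_i` of the power series `exp (∑ t_j T ^ j / j)`: `c_0 = 1` and
`(i + 1) c_{i+1} = ∑_{j ≤ i} t_{j+1} c_{i-j}`. -/
noncomputable def coeffL (t : ℕ → ℝ) : ℕ → ℝ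
  | 0 => 1
  | i + 1 => (∑ j : Fin (i + 1), t (j + 1) * coeffL t (i - j)) / (i + 1)

open Classical in
/-- The coefficient `a_i` of the normalized Euler factor `L_p(T / p ^ (1 / 2))` of the Jacobian of the curve
`C : Y ^ 2 = X ^ (2 g + 1) + m (2 g) X ^ (2 g) + ... + m 0`, where `L_p(T) = (1 - T) (1 - p T) exp (∑ #C(F_{p ^ k}) T ^ k / k) =
exp (∑ (#C(F_{p ^ k}) - (p ^ k + 1)) T ^ k / k)` and `#C(F_{p ^ k}) = points g p k m + 1` (there is one point at infinity); and `0`
if the curve is not smooth modulo `p`. -/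
noncomputable def a (g p : ℕ) (m : Fin (2 * g + 1) → ℕ) (i : ℕ) : ℝ :=
  if Smooth g p m then
    coeffL (fun k => ((points g p k m : ℝ) + 1) - ((p : ℝ) ^ k + 1)) i / (Real.sqrt p) ^ i
  else 0

/-- The number of the symmetric matrices with nonnegative integral entries, even diagonal and row sums `v`. -/
noncomputable def matrices {h : ℕ} (v : Fin h → ℕ) : ℕ :=
  {B : Fin h → Fin h → ℕ | (∀ i j, B i j = B j i) ∧ (∀ i, Even (B i i)) ∧ ∀ i, ∑ j, B i j = v i}.ncard

/-- For all weights in `W` and all `v 0, ..., v (h - 1) ≥ 1` with `∑ v j ≤ 2 g + 1` the weighted mean of the products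
`a_(v 0)(p) ⋯ a_(v (h - 1))(p)` over the first `n` primes `p_0 = 2, p_1, ..., p_(n-1)` differs from its expected value by at most
`(max 1 (∑ w k ^ 2)) ^ (1 / 2) n ^ δ`. -/
def Moments (g : ℕ) (δ : ℝ) (W : Set (ℕ → ℝ)) (n : ℕ) (m : Fin (2 * g + 1) → ℕ) : Prop :=
  ∀ w ∈ W, ∀ (h : ℕ) (v : Fin h → ℕ), (∀ j, 0 < v j) → ∑ j, v j ≤ 2 * g + 1 →
    |∑ k ∈ range n, w k * ∏ j, a g (Nat.nth Nat.Prime k) m (v j) - matrices v * ∑ k ∈ range n, w k| ≤
      Real.sqrt (max 1 (∑ k ∈ range n, w k ^ 2)) * (n : ℝ) ^ δ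

/-- The digit number `i` (counted from the right, beginning with `0`) of `n` in base `b`. -/
def digit (b i n : ℕ) : ℕ := n / b ^ i % b

/-- The number which arises from the number `N` with at most `K` digits in base `b`, if for every `i ∈ S`
the digit number `i` is replaced by `f i`. -/
def change (b K N : ℕ) (f : ℕ → ℕ) (S : Finset ℕ) : ℕ :=
  ∑ i ∈ range K, (if i ∈ S then f i else digit b i N) * b ^ i

open Classical in
/-- The number of the choices of `r l` of `K l` positions for all `l` for which the tuple of the numbers obtained by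
changing the digits of the `N l` at the chosen positions (according to `f l`) does not have the property `E`. -/
noncomputable def exceptions {d : ℕ} (b : ℕ) (K r N : Fin d → ℕ) (f : Fin d → ℕ → ℕ) (E : (Fin d → ℕ) → Prop) : ℕ :=
  ((Fintype.piFinset (fun l => powersetCard (r l) (range (K l)))).filter
    (fun S => ¬ E (fun l => change b (K l) (N l) (f l) (S l)))).card

lemma exc_eq {d : ℕ} (b : ℕ) (K r N : Fin d → ℕ) (f : Fin d → ℕ → ℕ) (E : (Fin d → ℕ) → Prop) :
    exceptions b K r N f E = Pool.Agent.Y57.FD.exceptions b K r N f E := rfl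

lemma coeffL_eq (t : ℕ → ℝ) (i : ℕ) : coeffL t i = Pool.Agent.NH22.ST.Sep.coeffL t i := by
  induction i using Nat.strong_induction_on with
  | _ i ih =>
    rcases i with _ | i
    · rw [coeffL, Pool.Agent.NH22.ST.Sep.coeffL_zero]
    · rw [coeffL, Pool.Agent.NH22.ST.Sep.coeffL_succ]
      congr 1
      refine sum_congr rfl fun j _ => ?_
      rw [ih (i - j) (by omega)]

/-- the coefficients only depend on the values at the positive integers -/
lemma coeffL_congr (t s : ℕ → ℝ) (h : ∀ j, 0 < j → t j = s j) (i : ℕ) :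
    Pool.Agent.NH22.ST.Sep.coeffL t i = Pool.Agent.NH22.ST.Sep.coeffL s i := by
  induction i using Nat.strong_induction_on with
  | _ i ih =>
    rcases i with _ | i
    · rw [Pool.Agent.NH22.ST.Sep.coeffL_zero, Pool.Agent.NH22.ST.Sep.coeffL_zero]
    · rw [Pool.Agent.NH22.ST.Sep.coeffL_succ, Pool.Agent.NH22.ST.Sep.coeffL_succ]
      congr 1
      refine sum_congr rfl fun j _ => ?_
      rw [ih (i - j) (by omega), h (j + 1) (by omega)]

lemma points_eq (g p k : ℕ) (hp : p.Prime) (h2 : p ≠ 2) (hk : 0 < k) (m : Fin (2 * g + 1) → ℕ) :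
    haveI : Fact p.Prime := ⟨hp⟩
    (points g p k m : ℝ) = (p : ℝ) ^ k + Pool.Agent.NH22.ST.SS p k (fun i => (m i : ZMod p)) := by
  haveI : Fact p.Prime := ⟨hp⟩
  have h1 := Pool.Agent.NH22.ST.All.t_PTS p h2 (2 * g + 1) (fun i => (m i : ZMod p)) k hk
  rw [← h1]
  unfold points
  rw [dif_pos hp]
  have h3 : ∀ P : AlgebraicClosure (ZMod p) × AlgebraicClosure (ZMod p),
      P.1 ^ (2 * g + 1) + ∑ i, (m i : AlgebraicClosure (ZMod p)) * P.1 ^ (i : ℕ) =
        Pool.Agent.NH22.ST.fv p (fun i => (m i : ZMod p)) P.1 := by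
    intro P
    unfold Pool.Agent.NH22.ST.fv
    congr 1
  simp only [h3]

lemma a_eq (g p : ℕ) (hp : p.Prime) (m : Fin (2 * g + 1) → ℕ) (i : ℕ) : a g p m i = Pool.Agent.NH22.ST.Sep.cf g p m i := by
  classical
  haveI : Fact p.Prime := ⟨hp⟩
  unfold a Pool.Agent.NH22.ST.Sep.cf
  by_cases h2 : p = 2
  · rw [if_neg (fun h => h.1 h2), dif_neg (fun h => h.2 h2)]
  · rw [dif_pos ⟨hp, h2⟩]
    by_cases h3 : (Pool.Agent.Y57.FD.HM.pol p (D := 2 * g + 1) (fun i => ((m i : ℕ) : ZMod p))).Separable
    · have h4 : Smooth g p m := ⟨h2, h3⟩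
      rw [if_pos h4, if_pos h3, coeffL_eq, Pool.Agent.NH22.ST.Sep.coeffL_scale]
      refine coeffL_congr _ _ (fun j hj => ?_) i
      rw [points_eq g p j hp h2 hj]
      congr 1
      ring
    · have h4 : ¬ Smooth g p m := fun h => h3 h.2
      rw [if_neg h4, if_neg h3]

/-- Let `g ≥ 0`, a base `b ≥ 2`, `δ > 0` and integers `A, B ≥ 0` be given. There are `c > 0` and `y₀` such that for all integers
`r l`, `K l` (`l = 0, ..., 2 g`), `y` with `2 r l ≤ K l` and `y ≥ y₀` the following holds.

Let `0 ≤ N l < b ^ K l` be arbitrary integers, prescribe for every position `j` a digit `f l j` different from the digit of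
`N l` in base `b`, and let for every `n` an arbitrary set `W n` of at most `n ^ B` weights `w : ℕ → [-1, 1]` be given (for instance
the indicator functions of intervals, residue classes or other sets of primes, or the values of characters). If one chooses `r l` of
the `K l` positions and replaces the digits of `N l` at these positions, then for all but at most a proportion `1 / y ^ A` of the
choices the Jacobian of the curve `Y ^ 2 = X ^ (2 g + 1) + m (2 g) X ^ (2 g) + ... + m 0` of genus `g` with the numbers `m l` obtained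
has the following property: for all integers `n` with `y ≤ n ≤ exp (c r l)` for all `l`, all weights `w ∈ W n` and all
`v 0, ..., v (h - 1) ≥ 1` with sum at most `2 g + 1` the sum `∑ w k a_(v 0)(p_k) ⋯ a_(v (h - 1))(p_k)` over the first `n` primes
differs from `∑ w k` times the number of the symmetric matrices with nonnegative integral entries, even diagonal and row sums `v` by
at most `(max 1 (∑ w k ^ 2)) ^ (1 / 2) n ^ δ`. -/
theorem result (g b : ℕ) (hb : 2 ≤ b) (δ : ℝ) (hδ : 0 < δ) (A B : ℕ) :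
    ∃ c : ℝ, 0 < c ∧ ∃ y₀ : ℕ, ∀ (K r : Fin (2 * g + 1) → ℕ) (y : ℕ), (∀ l, 2 * r l ≤ K l) → y₀ ≤ y →
    ∀ N : Fin (2 * g + 1) → ℕ, (∀ l, N l < b ^ K l) →
    ∀ f : Fin (2 * g + 1) → ℕ → ℕ, (∀ l j, f l j < b ∧ f l j ≠ digit b j (N l)) →
    ∀ W : ℕ → Set (ℕ → ℝ), (∀ n, (W n).Finite ∧ (W n).ncard ≤ n ^ B) → (∀ n, ∀ w ∈ W n, ∀ k, |w k| ≤ 1) →
      (exceptions b K r N f
        (fun m => ∀ n : ℕ, y ≤ n → (∀ l, (n : ℝ) ≤ Real.exp (c * r l)) → Moments g δ (W n) n m) : ℝ) ≤
        1 / (y : ℝ) ^ A * ∏ l, ((K l).choose (r l) : ℝ) := by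
  classical
  obtain ⟨c, hc, y₁, h⟩ := Pool.Agent.NH22.ST.Glob.glob Pool.Agent.NH22.ST.All.t_WEIL Pool.Agent.NH22.ST.All.t_POLY
    Pool.Agent.NH22.ST.All.t_WT Pool.Agent.NH22.ST.All.t_MAT g b hb δ hδ A B
  refine ⟨c, hc, y₁ + 2, fun K r y hrK hy N hN f hf W hW hW1 => ?_⟩
  rw [exc_eq]
  refine h K r y hrK (by omega) N hN f hf W hW hW1 _ fun m hm n hyn hnr w hw s v hv hs => ?_
  have hs1 : s ≤ 2 * g + 1 := by
    refine le_trans ?_ hs
    calc s = ∑ _j : Fin s, 1 := by simp
      _ ≤ ∑ j, v j := sum_le_sum fun j _ => hv j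
  have hv1 : ∀ j, v j < 2 * g + 2 := fun j =>
    Nat.lt_succ_of_le ((single_le_sum (f := v) (fun _ _ => Nat.zero_le _) (mem_univ j)).trans hs)
  have h1 := hm n (by omega) hyn hnr w hw ⟨⟨s, by omega⟩, fun j => ⟨v j, hv1 j⟩⟩ hs
  have h2 : ∑ k ∈ range n, w k * ∏ j, a g (Nat.nth Nat.Prime k) m (v j) =
      ∑ k ∈ range n, w k * Pool.Agent.NH22.ST.Glob.pr g (Nat.nth Nat.Prime k) m ⟨⟨s, by omega⟩, fun j => ⟨v j, hv1 j⟩⟩ := by
    refine sum_congr rfl fun k _ => ?_
    congr 1
    exact prod_congr rfl fun j _ => a_eq g _ (Nat.prime_nth_prime k) m (v j)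
  rw [h2]
  exact h1

end Pool.Agent.Results.MP_753a9c_nt.AllGeneraJointMoments
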