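import Pool.Agent.NH22.ST.Emp
import Pool.Agent.NH22.ST.Link
import Pool.Agent.NH22.ST.Meso

/-!
# The numbers of points over the fields `F_p, F_{p ^ 2}, ..., F_{p ^ d}` for almost all hyperelliptic curves of every genus `g`:
equidistribution in all half-spaces, up to `C (d / g) ^ (1 / 2)`

There is a constant `C` such that for all `g ≥ 1` and all `1 ≤ d ≤ g` the vectors of the normalized traces of the powers of the
Frobenius elements `t_k(p) = (#C(F_{p ^ k}) - (p ^ k + 1)) / p ^ (k / 2)`, `k = 1, ..., d`, of almost all hyperelliptic curves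
`Y ^ 2 = X ^ (2 g + 1) + m (2 g) X ^ (2 g) + ... + m 0` are equidistributed in all half-spaces with respect to the law of independent
normal variables of variance `k` and mean `1` (`k` even) or `0` (`k` odd) up to `C (d / g) ^ (1 / 2)`, over all sets of primes of a
family of polynomial size with at least `n ^ δ` elements among the first `n` primes. For `d = 1` this is a statement on the first
coefficients `a_1(p) = t_1(p)` of the normalized Euler factors.

The joint moments of weight at most `2 g + 1` have the expected values; the rest is Esseen's smoothing inequality for the linear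
forms.
-/

set_option autoImplicit false

namespace Pool.Agent.Results.MP_753a9c_nt.HalfspacesMesoscopic

open Finset MeasureTheory ProbabilityTheory

/-- The number of the solutions of `Y ^ 2 = X ^ (2 g + 1) + m (2 g) X ^ (2 g) + ... + m 1 X + m 0` in the field with `p ^ k` elements
(the set of the `x` with `x ^ (p ^ k) = x` in an algebraic closure of the field with `p` elements). -/
noncomputable def points (g p k : ℕ) (m : Fin (2 * g + 1) → ℕ) : ℕ :=
  if h : p.Prime then
    haveI : Fact p.Prime := ⟨h⟩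
    Nat.card {P : AlgebraicClosure (ZMod p) × AlgebraicClosure (ZMod p) //
      P.1 ^ (p ^ k) = P.1 ∧ P.2 ^ (p ^ k) = P.2 ∧
      P.2 ^ 2 = P.1 ^ (2 * g + 1) + ∑ i, (m i : AlgebraicClosure (ZMod p)) * P.1 ^ (i : ℕ)}
  else 0

/-- `p` is odd and `X ^ (2 g + 1) + m (2 g) X ^ (2 g) + ... + m 0` is separable modulo `p`, so that the curve of genus `g` with this
equation is smooth modulo `p`. -/
def Smooth (g p : ℕ) (m : Fin (2 * g + 1) → ℕ) : Prop :=
  p ≠ 2 ∧ (Polynomial.X ^ (2 * g + 1) + ∑ i, Polynomial.C (m i : ZMod p) * Polynomial.X ^ (i : ℕ)).Separable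

open Classical in
/-- `(#C(F_{p ^ k}) - (p ^ k + 1)) / p ^ (k / 2)` for the curve `C : Y ^ 2 = X ^ (2 g + 1) + m (2 g) X ^ (2 g) + ... + m 0`, where
`#C(F_{p ^ k}) = points g p k m + 1` (there is one point at infinity); and `0` if the curve is not smooth modulo `p`. -/
noncomputable def trace (g p k : ℕ) (m : Fin (2 * g + 1) → ℕ) : ℝ :=
  if Smooth g p m then (((points g p k m : ℝ) + 1) - ((p : ℝ) ^ k + 1)) / (Real.sqrt p) ^ k else 0

open Classical in
/-- The set of the elements of `S` below `n`. -/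
noncomputable def below (n : ℕ) (S : Set ℕ) : Finset ℕ := (range n).filter (fun k => k ∈ S)

/-- For all sets `S ∈ W` (of indices of primes) with at least `n ^ δ` elements below `n`, all `1 ≤ d ≤ g`, all real `c 1, ..., c d`
which are not all `0` and all real `t` the proportion of the `j ∈ S`, `j < n`, for which
`∑_{k ≤ d} c k t_k(p_j) ≤ ∑_{k ≤ d, k even} c k + t (∑_{k ≤ d} k (c k) ^ 2) ^ (1 / 2)`
differs from the value of the distribution function of the standard normal law at `t` by at most `C (d / g) ^ (1 / 2)`. -/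
def Equidistributed (g : ℕ) (C δ : ℝ) (W : Set (Set ℕ)) (n : ℕ) (m : Fin (2 * g + 1) → ℕ) : Prop :=
  ∀ S ∈ W, (n : ℝ) ^ δ ≤ (below n S).card → ∀ d : ℕ, 1 ≤ d → d ≤ g → ∀ c : ℕ → ℝ, (∃ k ∈ Icc 1 d, c k ≠ 0) → ∀ t : ℝ,
    |(((below n S).filter (fun j => ∑ k ∈ Icc 1 d, c k * trace g (Nat.nth Nat.Prime j) k m ≤
        ∑ k ∈ (Icc 1 d).filter Even, c k + t * Real.sqrt (∑ k ∈ Icc 1 d, k * c k ^ 2))).card : ℝ) /
          ((below n S).card : ℝ) -
      (gaussianReal 0 1).real (Set.Iic t)| ≤ C * Real.sqrt (d / g)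

/-- The digit number `i` (counted from the right, beginning with `0`) of `n` in base `b`. -/
def digit (b i n : ℕ) : ℕ := n / b ^ i % b

/-- The number which arises from the number `N` with at most `K` digits in base `b`, if for every `i ∈ S`
the digit number `i` is replaced by `f i`. -/
def change (b K N : ℕ) (f : ℕ → ℕ) (S : Finset ℕ) : ℕ :=
  ∑ i ∈ range K, (if i ∈ S then f i else digit b i N) * b ^ i

open Classical in
/-- The number of the choices of `r l` of `K l` positions for all `l` for which the tuple of the numbers obtained by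
changing the digits of the `N l` at the chosen positions (according to `f l`) does not have the property `E`. -/
noncomputable def exceptions {d : ℕ} (b : ℕ) (K r N : Fin d → ℕ) (f : Fin d → ℕ → ℕ) (E : (Fin d → ℕ) → Prop) : ℕ :=
  ((Fintype.piFinset (fun l => powersetCard (r l) (range (K l)))).filter
    (fun S => ¬ E (fun l => change b (K l) (N l) (f l) (S l)))).card

lemma exc_eq {d : ℕ} (b : ℕ) (K r N : Fin d → ℕ) (f : Fin d → ℕ → ℕ) (E : (Fin d → ℕ) → Prop) :
    exceptions b K r N f E = Pool.Agent.Y57.FD.exceptions b K r N f E := rfl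

lemma trace_eq (g p : ℕ) (hp : p.Prime) (m : Fin (2 * g + 1) → ℕ) (k : ℕ) (hk : 0 < k) :
    trace g p k m = Pool.Agent.NH22.ST.Sep2.sf g p m k := by
  classical
  unfold trace Pool.Agent.NH22.ST.Sep2.sf
  by_cases h : p.Prime ∧ p ≠ 2
  · rw [dif_pos h]
    have : Fact p.Prime := ⟨h.1⟩
    by_cases h3 : (Pool.Agent.Y57.FD.HM.pol p (D := 2 * g + 1) (fun i => ((m i : ℕ) : ZMod p))).Separable
    · rw [if_pos h3, if_pos (show Smooth g p m from ⟨h.2, h3⟩)]
      have h4 : (points g p k m : ℝ) = (p : ℝ) ^ k + Pool.Agent.NH22.ST.SS p k (fun i => (m i : ZMod p)) :=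
        Pool.Agent.NH22.ST.Link.points_eq g p k hp h.2 hk m
      rw [h4]
      congr 1
      ring
    · rw [if_neg h3, if_neg (fun h5 : Smooth g p m => h3 h5.2)]
  · rw [dif_neg h, if_neg (fun h5 : Smooth g p m => h ⟨hp, h5.1⟩)]

/-- sums over `1, ..., d` as sums over the coordinates -/
lemma sum_conv (M d : ℕ) (hd : d ≤ M) (F : ℕ → ℝ) :
    ∑ k ∈ Icc 1 d, F k = ∑ j : Fin M, if (j : ℕ) + 1 ≤ d then F ((j : ℕ) + 1) else 0 := by
  rw [Fin.sum_univ_eq_sum_range (fun j => if j + 1 ≤ d then F (j + 1) else 0) M, ← sum_filter]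
  refine sum_bij' (fun k _ => k - 1) (fun j _ => j + 1) ?_ ?_ ?_ ?_ ?_
  · intro k hk
    rw [mem_Icc] at hk
    rw [mem_filter, mem_range]
    omega
  · intro j hj
    rw [mem_filter, mem_range] at hj
    rw [mem_Icc]
    omega
  · intro k hk
    rw [mem_Icc] at hk
    omega
  · intro j hj
    rfl
  · intro k hk
    rw [mem_Icc] at hk
    rw [Nat.sub_add_cancel hk.1]

/-- There is `C > 0` such that for every `g ≥ 1` the following holds. Let a base `b ≥ 2`, `δ > 0` and
integers `A, B ≥ 0` be given. There are `c > 0` and `y₀` such that for all integers `r l`, `K l` (`l = 0, ..., 2 g`), `y` with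
`2 r l ≤ K l` and `y ≥ y₀`:

Let `0 ≤ N l < b ^ K l` be arbitrary integers, prescribe for every position `j` a digit `f l j` different from the digit of
`N l` in base `b`, and let for every `n` an arbitrary set `W n` of at most `n ^ B` sets of positive integers be given. If one chooses
`r l` of the `K l` positions and replaces the digits of `N l` at these positions, then for all but at most a proportion `1 / y ^ A` of
the choices the curve `Y ^ 2 = X ^ (2 g + 1) + m (2 g) X ^ (2 g) + ... + m 0` of genus `g` with the numbers `m l` obtained has the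
following property: for all integers `n` with `y ≤ n ≤ exp (c r l)` for all `l`, all `S ∈ W n` which have at least `n ^ δ` elements
below `n`, all `1 ≤ d ≤ g` and all half-spaces `H` of the space of dimension `d` the proportion of the `j ∈ S`, `j < n`, for which
the vector `(t_1(p_j), ..., t_d(p_j))` lies in `H` differs by at most `C (d / g) ^ (1 / 2)` from the probability that a vector of
independent normal variables `Z_k` with mean `1` (`k` even) or `0` (`k` odd) and variance `k` lies in `H`. -/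
theorem result : ∃ C : ℝ, 0 < C ∧ ∀ g : ℕ, 1 ≤ g →
    ∀ b : ℕ, 2 ≤ b → ∀ δ : ℝ, 0 < δ → ∀ A B : ℕ,
    ∃ c : ℝ, 0 < c ∧ ∃ y₀ : ℕ, ∀ (K r : Fin (2 * g + 1) → ℕ) (y : ℕ), (∀ l, 2 * r l ≤ K l) → y₀ ≤ y →
    ∀ N : Fin (2 * g + 1) → ℕ, (∀ l, N l < b ^ K l) →
    ∀ f : Fin (2 * g + 1) → ℕ → ℕ, (∀ l j, f l j < b ∧ f l j ≠ digit b j (N l)) →
    ∀ W : ℕ → Set (Set ℕ), (∀ n, (W n).Finite ∧ (W n).ncard ≤ n ^ B) →
      (exceptions b K r N f
        (fun m => ∀ n : ℕ, y ≤ n → (∀ l, (n : ℝ) ≤ Real.exp (c * r l)) → Equidistributed g C δ (W n) n m) : ℝ) ≤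
        1 / (y : ℝ) ^ A * ∏ l, ((K l).choose (r l) : ℝ) := by
  classical
  obtain ⟨C, hC, hQ⟩ := Pool.Agent.NH22.ST.All2.t_QE
  refine ⟨4 * C, by positivity, fun g hg b hb δ hδ A B => ?_⟩
  have hg0 : (0 : ℝ) < g := by exact_mod_cast hg
  have hsg : 0 < Real.sqrt g := Real.sqrt_pos.2 hg0
  obtain ⟨R, hRd⟩ : ∃ R : ℝ, R = (2 * ((2 * g + 1 : ℕ) : ℝ)) ^ (2 * g + 1) := ⟨_, rfl⟩
  have hR : 0 < R := by
    rw [hRd]
    positivity
  obtain ⟨η, hηd⟩ : ∃ η : ℝ, η = 1 / Real.sqrt g * Real.exp (-Real.sqrt g) / R := ⟨_, rfl⟩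
  have hη : 0 < η := by
    rw [hηd]
    positivity
  obtain ⟨c, hc, y₀, h⟩ := Pool.Agent.NH22.ST.Emp.emp Pool.Agent.NH22.ST.All.t_WEIL Pool.Agent.NH22.ST.All.t_POLY g b hb δ hδ A B η hη
  refine ⟨c, hc, y₀ + 2, fun K r y hrK hy N hN f hf W hW => ?_⟩
  rw [exc_eq]
  refine h K r y hrK (by omega) N hN f hf W hW _ fun m hm n hyn hnr S hS hcard d hd1 hdg a ha t => ?_
  have hn1 : (1 : ℝ) ≤ n := by
    have : 1 ≤ n := by omega
    exact_mod_cast this
  have hne : (below n S).Nonempty := by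
    rw [← card_pos]
    have h1 : (0 : ℝ) < ((below n S).card : ℝ) := lt_of_lt_of_le (by positivity) hcard
    exact_mod_cast h1
  -- the normalisation
  obtain ⟨V, hV⟩ : ∃ V : ℝ, V = ∑ k ∈ Icc 1 d, (k : ℝ) * a k ^ 2 := ⟨_, rfl⟩
  have hV0 : 0 < V := by
    obtain ⟨k, hk, hak⟩ := ha
    rw [hV]
    refine sum_pos' (fun k _ => by positivity) ⟨k, hk, ?_⟩
    have h1 : 1 ≤ k := (mem_Icc.1 hk).1
    have h2 : (0 : ℝ) < k := by exact_mod_cast h1
    positivity
  have hsV : 0 < Real.sqrt V := Real.sqrt_pos.2 hV0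
  have hsV2 : Real.sqrt V ^ 2 = V := Real.sq_sqrt hV0.le
  obtain ⟨ξ, hξ⟩ : ∃ ξ : Fin (2 * g + 1) → ℝ, ξ = fun j : Fin (2 * g + 1) => if (j : ℕ) + 1 ≤ d then a ((j : ℕ) + 1) / Real.sqrt V else 0 := ⟨_, rfl⟩
  have hξ0 : ∀ j : Fin (2 * g + 1), d < (j : ℕ) + 1 → ξ j = 0 := by
    intro j hj
    rw [hξ]
    exact if_neg (by omega)
  have hdM : d ≤ 2 * g + 1 := by omega
  have hξ1 : ∑ j : Fin (2 * g + 1), (((j : ℕ) : ℝ) + 1) * ξ j ^ 2 = 1 := by
    have h1 : ∑ j : Fin (2 * g + 1), (((j : ℕ) : ℝ) + 1) * ξ j ^ 2 = V / V := by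
      rw [hV, sum_div, ← hV, sum_conv (2 * g + 1) d hdM (fun k => (k : ℝ) * a k ^ 2 / V)]
      refine sum_congr rfl fun j _ => ?_
      rw [hξ]
      show (((j : ℕ) : ℝ) + 1) * (if (j : ℕ) + 1 ≤ d then a ((j : ℕ) + 1) / Real.sqrt V else 0) ^ 2 =
        if (j : ℕ) + 1 ≤ d then (((j : ℕ) + 1 : ℕ) : ℝ) * a ((j : ℕ) + 1) ^ 2 / V else 0
      by_cases hj : (j : ℕ) + 1 ≤ d
      · rw [if_pos hj, if_pos hj, div_pow, hsV2]
        push_cast
        ring
      · rw [if_neg hj, if_neg hj]
        ring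
    rw [h1, div_self hV0.ne']
  -- the linear form
  obtain ⟨L, hL⟩ : ∃ L : ℕ → ℝ, L = fun i => ∑ j : Fin (2 * g + 1), ξ j *
      Pool.Agent.NH22.ST.Sep2.sf g (Nat.nth Nat.Prime i) m ((j : ℕ) + 1) -
      ∑ j : Fin (2 * g + 1), ξ j * Pool.Agent.NH22.ST.et ((j : ℕ) + 1) := ⟨_, rfl⟩
  have hL1 : ∀ i, L i = (∑ k ∈ Icc 1 d, a k * trace g (Nat.nth Nat.Prime i) k m - ∑ k ∈ (Icc 1 d).filter Even, a k) / Real.sqrt V := by
    intro i
    rw [hL, _root_.sub_div, sum_div, sum_filter, sum_div,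
      sum_conv (2 * g + 1) d hdM (fun k => a k * trace g (Nat.nth Nat.Prime i) k m / Real.sqrt V),
      sum_conv (2 * g + 1) d hdM (fun k => (if Even k then a k else 0) / Real.sqrt V)]
    show ∑ j : Fin (2 * g + 1), ξ j * Pool.Agent.NH22.ST.Sep2.sf g (Nat.nth Nat.Prime i) m ((j : ℕ) + 1) -
      ∑ j : Fin (2 * g + 1), ξ j * Pool.Agent.NH22.ST.et ((j : ℕ) + 1) = _
    congr 1
    · refine sum_congr rfl fun j _ => ?_
      rw [hξ]
      show (if (j : ℕ) + 1 ≤ d then a ((j : ℕ) + 1) / Real.sqrt V else 0) * _ = _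
      by_cases hj : (j : ℕ) + 1 ≤ d
      · rw [if_pos hj, if_pos hj, trace_eq g _ (Nat.prime_nth_prime i) m _ (Nat.succ_pos _)]
        ring
      · rw [if_neg hj, if_neg hj, zero_mul]
    · refine sum_congr rfl fun j _ => ?_
      rw [hξ]
      show (if (j : ℕ) + 1 ≤ d then a ((j : ℕ) + 1) / Real.sqrt V else 0) * Pool.Agent.NH22.ST.et ((j : ℕ) + 1) = _
      unfold Pool.Agent.NH22.ST.et
      by_cases hj : (j : ℕ) + 1 ≤ d
      · rw [if_pos hj, if_pos hj]
        split_ifs <;> ring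
      · rw [if_neg hj, if_neg hj, zero_mul]
  -- the genus which is available
  obtain ⟨g', hg'⟩ : ∃ g' : ℕ, g' = (2 * g + 1) / (2 * d) := ⟨_, rfl⟩
  have hd0 : 0 < 2 * d := by omega
  have hg'1 : 1 ≤ g' := by
    rw [hg', Nat.le_div_iff_mul_le hd0]
    omega
  have hg'2 : 2 * g' * d ≤ 2 * g + 1 := by
    have := Nat.div_mul_le_self (2 * g + 1) (2 * d)
    rw [← hg'] at this
    calc 2 * g' * d = g' * (2 * d) := by ring
      _ ≤ 2 * g + 1 := this
  have hg'3 : g ≤ 2 * d * g' := by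
    have h1 : 2 * g + 1 < (g' + 1) * (2 * d) := by
      have := Nat.lt_mul_div_succ (2 * g + 1) hd0
      rw [← hg'] at this
      calc 2 * g + 1 < 2 * d * (g' + 1) := this
        _ = (g' + 1) * (2 * d) := by ring
    nlinarith
  have hg'4 : g' ≤ g := by
    have h1 : 2 * g' * 1 ≤ 2 * g' * d := Nat.mul_le_mul_left _ hd1
    omega
  have key := hQ g' (below n S) L (R * η) hg'1 hne (by positivity) ?_ t
  · have e1 : (below n S).filter (fun j => ∑ k ∈ Icc 1 d, a k * trace g (Nat.nth Nat.Prime j) k m ≤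
        ∑ k ∈ (Icc 1 d).filter Even, a k + t * Real.sqrt (∑ k ∈ Icc 1 d, k * a k ^ 2)) =
        (below n S).filter (fun j => L j ≤ t) := by
      refine filter_congr fun j _ => ?_
      rw [hL1, div_le_iff₀ hsV, ← hV]
      constructor <;> intro h <;> linarith
    rw [e1]
    refine key.trans ?_
    have hg'0 : (0 : ℝ) < g' := by exact_mod_cast hg'1
    have hd0' : (0 : ℝ) < d := by exact_mod_cast hd1
    have k1 : 1 / Real.sqrt g' ≤ 2 * Real.sqrt (d / g) := by
      have k2 : (1 : ℝ) / g' ≤ 2 ^ 2 * (d / g) := by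
        have k3 : (g : ℝ) ≤ 2 * d * g' := by exact_mod_cast hg'3
        rw [div_le_iff₀ hg'0]
        have k4 : (2 : ℝ) ^ 2 * (d / g) * g' = (2 * (2 * d * g')) / g := by ring
        rw [k4, le_div_iff₀ hg0]
        linarith
      calc 1 / Real.sqrt g' = Real.sqrt (1 / g') := by
            rw [Real.sqrt_div zero_le_one, Real.sqrt_one]
        _ ≤ Real.sqrt (2 ^ 2 * (d / g)) := Real.sqrt_le_sqrt k2
        _ = 2 * Real.sqrt (d / g) := by
            rw [Real.sqrt_mul (by positivity), Real.sqrt_sq (by norm_num)]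
    have k5 : R * η * Real.exp (Real.sqrt g') ≤ Real.sqrt (d / g) := by
      have k6 : Real.exp (Real.sqrt g') ≤ Real.exp (Real.sqrt g) :=
        Real.exp_le_exp.2 (Real.sqrt_le_sqrt (by exact_mod_cast hg'4))
      have k7 : R * η * Real.exp (Real.sqrt g) = 1 / Real.sqrt g := by
        rw [hηd]
        rw [show R * (1 / Real.sqrt g * Real.exp (-Real.sqrt g) / R) * Real.exp (Real.sqrt g) =
          (R / R) * (1 / Real.sqrt g * (Real.exp (-Real.sqrt g) * Real.exp (Real.sqrt g))) by ring,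
          ← Real.exp_add, neg_add_cancel, Real.exp_zero, div_self hR.ne']
        ring
      calc R * η * Real.exp (Real.sqrt g') ≤ R * η * Real.exp (Real.sqrt g) :=
            mul_le_mul_of_nonneg_left k6 (by positivity)
        _ = 1 / Real.sqrt g := k7
        _ = Real.sqrt (1 / g) := by rw [Real.sqrt_div zero_le_one, Real.sqrt_one]
        _ ≤ Real.sqrt (d / g) := by
            refine Real.sqrt_le_sqrt ?_
            refine div_le_div_of_nonneg_right ?_ hg0.le
            exact_mod_cast hd1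
    have k8 : 0 ≤ Real.sqrt (d / g) := Real.sqrt_nonneg _
    calc C * (1 / Real.sqrt g' + R * η * Real.exp (Real.sqrt g')) ≤
        C * (2 * Real.sqrt (d / g) + Real.sqrt (d / g)) := mul_le_mul_of_nonneg_left (add_le_add k1 k5) hC.le
      _ ≤ 4 * C * Real.sqrt (d / g) := by nlinarith [mul_nonneg hC.le k8]
  · intro q hq
    have hqd : q * d ≤ 2 * g + 1 := le_trans (Nat.mul_le_mul_right d hq) hg'2
    have h1 := Pool.Agent.NH22.ST.Meso.mom_fin (2 * g + 1) (2 * g + 1) d (below n S)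
      (fun i j => Pool.Agent.NH22.ST.Sep2.sf g (Nat.nth Nat.Prime i) m ((j : ℕ) + 1)) η hη.le
      (fun e he => hm n hyn hnr S hS hcard e he) ξ hξ0 hξ1 q hqd
    have h2 : (2 * ((2 * g + 1 : ℕ) : ℝ)) ^ q * η ≤ R * η := by
      refine mul_le_mul_of_nonneg_right ?_ hη.le
      rw [hRd]
      refine pow_le_pow_right₀ ?_ ?_
      · push_cast
        linarith
      · have h3 : q * 1 ≤ q * d := Nat.mul_le_mul_left _ hd1
        omega
    rw [hL]
    exact h1.trans h2

end Pool.Agent.Results.MP_753a9c_nt.HalfspacesMesoscopic
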