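import Pool.Agent.NH22.ST.Emp
import Pool.Agent.NH22.ST.Link
import Pool.Agent.NH22.ST.All2

/-!
# The Sato-Tate conjecture for all coefficients of almost all hyperelliptic curves, in the limit of large genus

For every `i` and `ε > 0` there is `g₀` such that for every genus `g ≥ g₀` the coefficients `a_i(p)` of the normalized Euler factors
of almost all hyperelliptic curves `Y ^ 2 = X ^ (2 g + 1) + m (2 g) X ^ (2 g) + ... + m 0` are equidistributed up to `ε` with respect
to the limit law of the coefficient of a random matrix in `USp(2 g)` for large `g`: the law of the coefficient of `T ^ i` in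
`exp (∑ Z_k T ^ k / k)`, where the `Z_k` are independent normal random variables with variance `k` and mean `1` (`k` even) or `0`
(`k` odd). This holds over all sets of primes of a family of polynomial size with at least `n ^ δ` elements among the first `n` primes
(for instance short intervals and residue classes).

All joint moments of weight at most `2 g + 1` of the normalised traces of the powers of the Frobenius elements have the expected
values; the rest is the method of moments (Levy's theorem).
-/

set_option autoImplicit false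

namespace Pool.Agent.Results.MP_753a9c_nt.LargeGenusLimit

open Finset MeasureTheory ProbabilityTheory NNReal
open Pool.Agent.NH22.ST.Link (a coeffL)

/-- The law of independent normal random variables `Z_1, ..., Z_i`, where `Z_k` has the variance `k` and the mean `1` if `k` is even
and `0` if `k` is odd. -/
noncomputable def law (i : ℕ) : Measure (Fin i → ℝ) :=
  Measure.pi (fun j : Fin i => gaussianReal (if Even ((j : ℕ) + 1) then 1 else 0) (((j : ℕ) : ℝ≥0) + 1))

/-- The sequence `z_1, z_2, ..., z_i, 0, 0, ...` (indexed by the positive integers) which belongs to a vector. -/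
noncomputable def seq (i : ℕ) (z : Fin i → ℝ) (k : ℕ) : ℝ := if h : k - 1 < i then z ⟨k - 1, h⟩ else 0

/-- The distribution function of the coefficient of `T ^ i` in `exp (∑ Z_k T ^ k / k)`. -/
noncomputable def limitCdf (i : ℕ) (t : ℝ) : ℝ := (law i).real {z | coeffL (seq i z) i ≤ t}

open Classical in
/-- The set of the elements of `S` below `n`. -/
noncomputable def below (n : ℕ) (S : Set ℕ) : Finset ℕ := (range n).filter (fun k => k ∈ S)

/-- For all sets `S ∈ W` (of indices of primes) with at least `n ^ δ` elements below `n` the distribution function of the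
coefficients `a_i(p_k)`, `k ∈ S`, `k < n`, differs from the limit distribution function by at most `ε`. -/
def Equidistributed (g i : ℕ) (ε δ : ℝ) (W : Set (Set ℕ)) (n : ℕ) (m : Fin (2 * g + 1) → ℕ) : Prop :=
  ∀ S ∈ W, (n : ℝ) ^ δ ≤ (below n S).card → ∀ t : ℝ,
    |(((below n S).filter (fun k => a g (Nat.nth Nat.Prime k) m i ≤ t)).card : ℝ) / ((below n S).card : ℝ) - limitCdf i t| ≤ ε

/-- The digit number `i` (counted from the right, beginning with `0`) of `n` in base `b`. -/
def digit (b i n : ℕ) : ℕ := n / b ^ i % b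

/-- The number which arises from the number `N` with at most `K` digits in base `b`, if for every `i ∈ S`
the digit number `i` is replaced by `f i`. -/
def change (b K N : ℕ) (f : ℕ → ℕ) (S : Finset ℕ) : ℕ :=
  ∑ i ∈ range K, (if i ∈ S then f i else digit b i N) * b ^ i

open Classical in
/-- The number of the choices of `r l` of `K l` positions for all `l` for which the tuple of the numbers obtained by
changing the digits of the `N l` at the chosen positions (according to `f l`) does not have the property `E`. -/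
noncomputable def exceptions {d : ℕ} (b : ℕ) (K r N : Fin d → ℕ) (f : Fin d → ℕ → ℕ) (E : (Fin d → ℕ) → Prop) : ℕ :=
  ((Fintype.piFinset (fun l => powersetCard (r l) (range (K l)))).filter
    (fun S => ¬ E (fun l => change b (K l) (N l) (f l) (S l)))).card

lemma exc_eq {d : ℕ} (b : ℕ) (K r N : Fin d → ℕ) (f : Fin d → ℕ → ℕ) (E : (Fin d → ℕ) → Prop) :
    exceptions b K r N f E = Pool.Agent.Y57.FD.exceptions b K r N f E := rfl

/-- a product over the first `i` of `L` indices -/
lemma prod_ext {i L : ℕ} (h : i ≤ L) (e : Fin i → ℕ) (F : ℕ → ℕ → ℝ) (hF : ∀ j, F j 0 = 1) :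
    ∏ j : Fin L, F j (if h : (j : ℕ) < i then e ⟨j, h⟩ else 0) = ∏ j : Fin i, F j (e j) := by
  rw [← prod_range (fun j => F j (if h : j < i then e ⟨j, h⟩ else 0))]
  rw [← prod_subset (range_subset_range.2 h) (fun j _ hj => by
    rw [mem_range] at hj
    rw [dif_neg hj]
    exact hF j), prod_range]
  exact prod_congr rfl fun j _ => by rw [dif_pos j.2]

lemma sum_ext {i L : ℕ} (h : i ≤ L) (e : Fin i → ℕ) :
    ∑ j : Fin L, ((j : ℕ) + 1) * (if h : (j : ℕ) < i then e ⟨j, h⟩ else 0) = ∑ j : Fin i, ((j : ℕ) + 1) * e j := by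
  rw [← sum_range (fun j => (j + 1) * (if h : j < i then e ⟨j, h⟩ else 0))]
  rw [← sum_subset (range_subset_range.2 h) (fun j _ hj => by
    rw [mem_range] at hj
    rw [dif_neg hj, mul_zero]), sum_range]
  exact sum_congr rfl fun j _ => by rw [dif_pos j.2]

/-- Let `i ≥ 1` and `ε > 0`. There is `g₀` such that for every `g ≥ g₀` the following holds. Let a base `b ≥ 2`, `δ > 0` and
integers `A, B ≥ 0` be given. There are `c > 0` and `y₀` such that for all integers `r l`, `K l` (`l = 0, ..., 2 g`), `y` with
`2 r l ≤ K l` and `y ≥ y₀`: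

Let `0 ≤ N l < b ^ K l` be arbitrary integers, prescribe for every position `j` a digit `f l j` different from the digit of
`N l` in base `b`, and let for every `n` an arbitrary set `W n` of at most `n ^ B` sets of positive integers be given. If one chooses
`r l` of the `K l` positions and replaces the digits of `N l` at these positions, then for all but at most a proportion `1 / y ^ A` of
the choices the Jacobian of the curve `Y ^ 2 = X ^ (2 g + 1) + m (2 g) X ^ (2 g) + ... + m 0` of genus `g` with the numbers `m l`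
obtained has the following property: for all integers `n` with `y ≤ n ≤ exp (c r l)` for all `l` and all `S ∈ W n` which have at
least `n ^ δ` elements below `n` the distribution function of the coefficients `a_i(p_k)` (`k < n`, `k ∈ S`) differs everywhere from
the limit distribution function by at most `ε`. -/
theorem result (i : ℕ) (hi : 0 < i) (ε : ℝ) (hε : 0 < ε) : ∃ g₀ : ℕ, ∀ g : ℕ, g₀ ≤ g →
    ∀ b : ℕ, 2 ≤ b → ∀ δ : ℝ, 0 < δ → ∀ A B : ℕ,
    ∃ c : ℝ, 0 < c ∧ ∃ y₀ : ℕ, ∀ (K r : Fin (2 * g + 1) → ℕ) (y : ℕ), (∀ l, 2 * r l ≤ K l) → y₀ ≤ y →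
    ∀ N : Fin (2 * g + 1) → ℕ, (∀ l, N l < b ^ K l) →
    ∀ f : Fin (2 * g + 1) → ℕ → ℕ, (∀ l j, f l j < b ∧ f l j ≠ digit b j (N l)) →
    ∀ W : ℕ → Set (Set ℕ), (∀ n, (W n).Finite ∧ (W n).ncard ≤ n ^ B) →
      (exceptions b K r N f
        (fun m => ∀ n : ℕ, y ≤ n → (∀ l, (n : ℝ) ≤ Real.exp (c * r l)) → Equidistributed g i ε δ (W n) n m) : ℝ) ≤
        1 / (y : ℝ) ^ A * ∏ l, ((K l).choose (r l) : ℝ) := by
  classical
  obtain ⟨K₀, η, hη, hM⟩ := Pool.Agent.NH22.ST.All2.t_M i hi ε hε
  refine ⟨K₀ + i, fun g hg b hb δ hδ A B => ?_⟩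
  obtain ⟨c, hc, y₀, h⟩ := Pool.Agent.NH22.ST.Emp.emp Pool.Agent.NH22.ST.All.t_WEIL Pool.Agent.NH22.ST.All.t_POLY g b hb δ hδ A B η hη
  refine ⟨c, hc, y₀ + 2, fun K r y hrK hy N hN f hf W hW => ?_⟩
  rw [exc_eq]
  refine h K r y hrK (by omega) N hN f hf W hW _ fun m hm n hyn hnr S hS hcard t => ?_
  have hn1 : (1 : ℝ) ≤ n := by
    have : 1 ≤ n := by omega
    exact_mod_cast this
  have hne : (below n S).Nonempty := by
    rw [← card_pos]
    have h1 : (0 : ℝ) < ((below n S).card : ℝ) := lt_of_lt_of_le (by positivity) hcard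
    exact_mod_cast h1
  have hiL : i ≤ 2 * g + 1 := by omega
  have key := hM (below n S) (fun k j => Pool.Agent.NH22.ST.Sep2.sf g (Nat.nth Nat.Prime k) m ((j : ℕ) + 1)) hne ?_ t
  · have e1 : (below n S).filter (fun k => a g (Nat.nth Nat.Prime k) m i ≤ t) =
        (below n S).filter (fun k => Pool.Agent.NH22.ST.ev i
          (fun j => Pool.Agent.NH22.ST.Sep2.sf g (Nat.nth Nat.Prime k) m ((j : ℕ) + 1)) ≤ t) := by
      refine filter_congr fun k _ => ?_
      rw [Pool.Agent.NH22.ST.Link.a_ev g _ (Nat.prime_nth_prime k) m i hi]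
    have e2 : limitCdf i t = (Pool.Agent.NH22.ST.Gm i).real {z | Pool.Agent.NH22.ST.ev i z ≤ t} := by
      unfold limitCdf
      simp only [Pool.Agent.NH22.ST.Link.ev_eq]
      rfl
    rw [e1, e2]
    exact key
  · intro e he
    have h1 := hm n hyn hnr S hS hcard (fun j => if h : (j : ℕ) < i then e ⟨j, h⟩ else 0) (by
      rw [sum_ext hiL e]
      omega)
    have h2 : ∀ k : ℕ, ∏ j : Fin (2 * g + 1), Pool.Agent.NH22.ST.Sep2.sf g (Nat.nth Nat.Prime k) m ((j : ℕ) + 1) ^
        (if h : (j : ℕ) < i then e ⟨j, h⟩ else 0) =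
        ∏ j : Fin i, Pool.Agent.NH22.ST.Sep2.sf g (Nat.nth Nat.Prime k) m ((j : ℕ) + 1) ^ e j := fun k =>
      prod_ext hiL e (fun j q => Pool.Agent.NH22.ST.Sep2.sf g (Nat.nth Nat.Prime k) m (j + 1) ^ q) (fun j => pow_zero _)
    have h3 : ∏ j : Fin (2 * g + 1), Pool.Agent.NH22.ST.MM ((j : ℕ) + 1) (if h : (j : ℕ) < i then e ⟨j, h⟩ else 0) =
        ∏ j : Fin i, Pool.Agent.NH22.ST.MM ((j : ℕ) + 1) (e j) :=
      prod_ext hiL e (fun j q => Pool.Agent.NH22.ST.MM (j + 1) q) (fun j => Pool.Agent.NH22.ST.Sep2.MM_zero _)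
    rw [h3] at h1
    simp only [h2] at h1
    exact h1

end Pool.Agent.Results.MP_753a9c_nt.LargeGenusLimit
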